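import Pool.Agent.Y600.DC.Stm

/-!
# The gadget graph is chordal; an unbalanced example
-/

namespace Pool.Agent.Y410.DC

open Pool.Agent.Y600.DC

variable {S E : Type} {s t : E → S}

theorem adj_iff (x y : S ⊕ (E × Fin 5)) :
    (dGraph s t).Adj x y ↔ x ≠ y ∧ (dAdj s t x y ∨ dAdj s t y x) := Iff.rfl

theorem nb2 {e : E} {x : S ⊕ (E × Fin 5)} (h : (dGraph s t).Adj x (Sum.inr (e, 2))) :
    x = Sum.inl (s e) ∨ x = Sum.inr (e, 0) := by
  rw [adj_iff] at h
  rcases x with x | ⟨f, j⟩
  · simpa [dAdj] using h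
  · obtain ⟨_, h⟩ := h
    fin_cases j <;> simp [dAdj] at h ⊢
    tauto

theorem nb3 {e : E} {x : S ⊕ (E × Fin 5)} (h : (dGraph s t).Adj x (Sum.inr (e, 3))) :
    x = Sum.inr (e, 0) ∨ x = Sum.inr (e, 1) := by
  rw [adj_iff] at h
  rcases x with x | ⟨f, j⟩
  · simp [dAdj] at h
  · obtain ⟨_, h⟩ := h
    fin_cases j <;> simp [dAdj] at h ⊢ <;> tauto

theorem nb4 {e : E} {x : S ⊕ (E × Fin 5)} (h : (dGraph s t).Adj x (Sum.inr (e, 4))) :
    x = Sum.inl (t e) ∨ x = Sum.inr (e, 1) := by
  rw [adj_iff] at h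
  rcases x with x | ⟨f, j⟩
  · simpa [dAdj] using h
  · obtain ⟨_, h⟩ := h
    fin_cases j <;> simp [dAdj] at h ⊢
    tauto

theorem adj_l (x : S) (e : E) (i : Fin 5) (hi : i = 0 ∨ i = 1) :
    (dGraph s t).Adj (Sum.inl x) (Sum.inr (e, i)) := by
  rw [adj_iff]
  refine ⟨by simp, Or.inl ?_⟩
  rcases hi with rfl | rfl <;> simp [dAdj]

theorem adj_01 (e : E) : (dGraph s t).Adj (Sum.inr (e, 0)) (Sum.inr (e, 1)) := by
  rw [adj_iff]
  refine ⟨by simp, Or.inl ?_⟩
  simp [dAdj]

/-- two different neighbours of an ear are adjacent -/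
theorem ear_adj {e : E} {i : Fin 5} (hi : i = 2 ∨ i = 3 ∨ i = 4) {x y : S ⊕ (E × Fin 5)}
    (hx : (dGraph s t).Adj x (Sum.inr (e, i))) (hy : (dGraph s t).Adj y (Sum.inr (e, i)))
    (hxy : x ≠ y) : (dGraph s t).Adj x y := by
  rcases hi with rfl | rfl | rfl
  · rcases nb2 hx with rfl | rfl <;> rcases nb2 hy with rfl | rfl
    · exact absurd rfl hxy
    · exact adj_l _ _ _ (Or.inl rfl)
    · exact (adj_l _ _ _ (Or.inl rfl)).symm
    · exact absurd rfl hxy
  · rcases nb3 hx with rfl | rfl <;> rcases nb3 hy with rfl | rfl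
    · exact absurd rfl hxy
    · exact adj_01 _
    · exact (adj_01 _).symm
    · exact absurd rfl hxy
  · rcases nb4 hx with rfl | rfl <;> rcases nb4 hy with rfl | rfl
    · exact absurd rfl hxy
    · exact adj_l _ _ _ (Or.inr rfl)
    · exact (adj_l _ _ _ (Or.inr rfl)).symm
    · exact absurd rfl hxy

/-- a vertex of `S` is adjacent to every other vertex which is not an ear -/
theorem adj_of_not_ear {x : S} {y : S ⊕ (E × Fin 5)} (hy : ∀ e i, y = Sum.inr (e, i) → i = 0 ∨ i = 1)
    (hxy : Sum.inl x ≠ y) : (dGraph s t).Adj (Sum.inl x) y := by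
  rcases y with y | ⟨e, i⟩
  · rw [adj_iff]
    refine ⟨hxy, Or.inl ?_⟩
    simpa [dAdj] using hxy
  · exact adj_l _ _ _ (hy e i rfl)

/-- the edge of two adjacent vertices of the form `(e, 0)`, `(e, 1)` -/
theorem same_e {e f : E} {i j : Fin 5} (h : (dGraph s t).Adj (Sum.inr (e, i)) (Sum.inr (f, j))) :
    e = f := by
  rw [adj_iff] at h
  rcases h.2 with h | h
  · exact h.1
  · exact h.1.symm

theorem chd : S_CHD := by
  intro S E s t m hm c hinj hadj
  have : NeZero m := ⟨by omega⟩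
  have : Fact (1 < m) := ⟨by omega⟩
  -- the small numbers are different
  have h1 : (1 : ZMod m) ≠ 0 := one_ne_zero
  have h2 : (2 : ZMod m) ≠ 0 := by
    intro h
    have h' : ((2 : ℕ) : ZMod m) = 0 := by exact_mod_cast h
    rw [ZMod.natCast_eq_zero_iff] at h'
    have := Nat.le_of_dvd (by norm_num) h'
    omega
  have h3 : (3 : ZMod m) ≠ 0 := by
    intro h
    have h' : ((3 : ℕ) : ZMod m) = 0 := by exact_mod_cast h
    rw [ZMod.natCast_eq_zero_iff] at h'
    have := Nat.le_of_dvd (by norm_num) h'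
    omega
  -- a chord between `i` and `i + 2`
  have key : ∀ i : ZMod m, (dGraph s t).Adj (c i) (c (i + 2)) →
      ∃ i j, j ≠ i + 1 ∧ i ≠ j + 1 ∧ (dGraph s t).Adj (c i) (c j) := by
    intro i h
    refine ⟨i, i + 2, ?_, ?_, h⟩
    · intro h'
      apply h1
      linear_combination h'
    · intro h'
      apply h3
      linear_combination -h'
  by_cases hear : ∃ i e k, (k = 2 ∨ k = 3 ∨ k = 4) ∧ c i = Sum.inr (e, k)
  · obtain ⟨i, e, k, hk, hi⟩ := hear
    refine key (i - 1) ?_
    have ha := hadj (i - 1)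
    have hb := hadj i
    rw [show i - 1 + 1 = i by ring, hi] at ha
    rw [hi] at hb
    rw [show i - 1 + 2 = i + 1 by ring]
    refine ear_adj hk ha hb.symm ?_
    intro h
    apply h2
    linear_combination -(hinj h)
  · push Not at hear
    have hne : ∀ i e k, c i = Sum.inr (e, k) → k = 0 ∨ k = 1 := by
      intro i e k h
      by_contra hk
      refine hear i e k ?_ h
      fin_cases k <;> simp_all
    by_cases hS : ∃ i x, c i = Sum.inl x
    · obtain ⟨i, x, hi⟩ := hS
      refine key i ?_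
      rw [hi]
      refine adj_of_not_ear (fun e k h => hne _ _ _ h) ?_
      rw [← hi]
      intro h
      apply h2
      linear_combination -(hinj h)
    · push Not at hS
      exfalso
      have hr : ∀ i, ∃ e k, c i = Sum.inr (e, k) ∧ (k = 0 ∨ k = 1) := by
        intro i
        rcases h : c i with x | ⟨e, k⟩
        · exact absurd h (hS i x)
        · exact ⟨e, k, rfl, hne i e k h⟩
      obtain ⟨e0, k0, g0, f0⟩ := hr 0
      obtain ⟨e1, k1, g1, f1⟩ := hr 1
      obtain ⟨e2, k2, g2, f2⟩ := hr 2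
      have a0 := hadj 0
      have a1 := hadj 1
      rw [zero_add, g0, g1] at a0
      rw [show (1 : ZMod m) + 1 = 2 by norm_num, g1, g2] at a1
      have b0 := same_e a0
      have b1 := same_e a1
      subst b0 b1
      have d01 : c 0 ≠ c 1 := fun h => h1 (hinj h).symm
      have d02 : c 0 ≠ c 2 := fun h => h2 (hinj h).symm
      have d12 : c 1 ≠ c 2 := fun h => h1 (by linear_combination -(hinj h))
      rw [g0, g1] at d01
      rw [g0, g2] at d02
      rw [g1, g2] at d12
      rcases f0 with rfl | rfl <;> rcases f1 with rfl | rfl <;> rcases f2 with rfl | rfl <;>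
        simp_all

/-! ### An example which is not balanced -/

/-- the graph of the triangle -/
abbrev G3 : SimpleGraph (ZMod 3 ⊕ (ZMod 3 × Fin 5)) := dGraph (fun i : ZMod 3 => i) (fun i => i + 1)

/-- the long cycle -/
def xs (i : Fin 9) : ZMod 3 ⊕ (ZMod 3 × Fin 5) :=
  ![Sum.inl 0, Sum.inr (0, 0), Sum.inr (0, 1), Sum.inl 1, Sum.inr (1, 0), Sum.inr (1, 1),
    Sum.inl 2, Sum.inr (2, 0), Sum.inr (2, 1)] i

/-- the ears -/
def er (i : Fin 9) : ZMod 3 ⊕ (ZMod 3 × Fin 5) :=
  ![Sum.inr (0, 2), Sum.inr (0, 3), Sum.inr (0, 4), Sum.inr (1, 2), Sum.inr (1, 3), Sum.inr (1, 4),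
    Sum.inr (2, 2), Sum.inr (2, 3), Sum.inr (2, 4)] i

theorem xs_inj : Function.Injective xs := by decide

theorem er_inj : Function.Injective er := by decide

theorem er_ne_xs : ∀ i j, er i ≠ xs j := by decide

theorem er_nb (i : Fin 9) (y : ZMod 3 ⊕ (ZMod 3 × Fin 5)) (h : G3.Adj y (er i)) :
    y = xs i ∨ y = xs (i + 1) := by
  have e1 : (0 : ZMod 3) + 1 = 1 := by decide
  have e2 : (1 : ZMod 3) + 1 = 2 := by decide
  have e3 : (2 : ZMod 3) + 1 = 0 := by decide
  fin_cases i
  · exact nb2 h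
  · exact nb3 h
  · exact (nb4 h).symm
  · exact nb2 h
  · exact nb3 h
  · exact (nb4 h).symm
  · exact nb2 h
  · exact nb3 h
  · exact (nb4 h).symm

theorem er_adj1 (i : Fin 9) : G3.Adj (er i) (xs i) := by
  rw [adj_iff]
  refine ⟨er_ne_xs _ _, ?_⟩
  fin_cases i <;> simp [er, xs, dAdj]

theorem er_adj2 (i : Fin 9) : G3.Adj (er i) (xs (i + 1)) := by
  rw [adj_iff]
  refine ⟨er_ne_xs _ _, ?_⟩
  have e2 : (1 : ZMod 3) + 1 = 2 := by decide
  have e3 : (2 : ZMod 3) + 1 = 0 := by decide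
  fin_cases i <;> simp [er, xs, dAdj, e2, e3]

theorem xs_adj (i : Fin 9) : G3.Adj (xs i) (xs (i + 1)) := by
  have h1 := er_adj1 i
  have h2 := er_adj2 i
  have hd : ∀ i : Fin 9, i ≠ i + 1 := by decide
  have hne : xs i ≠ xs (i + 1) := fun h => hd i (xs_inj h)
  fin_cases i
  · exact ear_adj (i := 2) (by decide) h1.symm h2.symm hne
  · exact ear_adj (i := 3) (by decide) h1.symm h2.symm hne
  · exact ear_adj (i := 4) (by decide) h1.symm h2.symm hne
  · exact ear_adj (i := 2) (by decide) h1.symm h2.symm hne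
  · exact ear_adj (i := 3) (by decide) h1.symm h2.symm hne
  · exact ear_adj (i := 4) (by decide) h1.symm h2.symm hne
  · exact ear_adj (i := 2) (by decide) h1.symm h2.symm hne
  · exact ear_adj (i := 3) (by decide) h1.symm h2.symm hne
  · exact ear_adj (i := 4) (by decide) h1.symm h2.symm hne

theorem unb : S_UNB := by
  intro hB
  have hB' : ∀ (x : Fin 9 → ZMod 3 ⊕ (ZMod 3 × Fin 5)) (E : Fin 9 → Set (ZMod 3 ⊕ (ZMod 3 × Fin 5))),
      Function.Injective x → Function.Injective E →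
      (∀ i, Maximal (fun s : Set (ZMod 3 ⊕ (ZMod 3 × Fin 5)) => G3.IsClique s) (E i)) →
      (∀ i, x i ∈ E i ∧ x (i + 1) ∈ E i) → ∃ i, 3 ≤ {j | x j ∈ E i}.ncard :=
    hB 9 (by decide) (by norm_num)
  obtain ⟨i, hi⟩ := hB' xs (fun i => {er i, xs i, xs (i + 1)}) xs_inj
    (by
      intro i j hij
      have h1 : er i ∈ ({er j, xs j, xs (j + 1)} : Set _) := by
        change ({er i, xs i, xs (i + 1)} : Set _) = {er j, xs j, xs (j + 1)} at hij
        rw [← hij]
        simp
      rcases h1 with h | h | h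
      · exact er_inj h
      · exact absurd h (er_ne_xs _ _)
      · exact absurd h (er_ne_xs _ _))
    (by
      intro i
      refine ⟨?_, ?_⟩
      · rintro a (rfl | rfl | rfl) b (rfl | rfl | rfl) hab
        · exact absurd rfl hab
        · exact er_adj1 i
        · exact er_adj2 i
        · exact (er_adj1 i).symm
        · exact absurd rfl hab
        · exact xs_adj i
        · exact (er_adj2 i).symm
        · exact (xs_adj i).symm
        · exact absurd rfl hab
      · intro T hT hle y hy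
        by_cases hye : y = er i
        · exact Or.inl hye
        · have := hT hy (hle (Or.inl rfl)) hye
          rcases er_nb i y this with h | h
          · exact Or.inr (Or.inl h)
          · exact Or.inr (Or.inr h))
    (fun i => ⟨Or.inr (Or.inl rfl), Or.inr (Or.inr rfl)⟩)
  have h2 : {j | xs j ∈ ({er i, xs i, xs (i + 1)} : Set _)} ⊆ ({i, i + 1} : Set (Fin 9)) := by
    rintro j (h | h | h)
    · exact absurd h.symm (er_ne_xs _ _)
    · exact Or.inl (xs_inj h)
    · exact Or.inr (xs_inj h)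
  have h3 : {j | xs j ∈ ({er i, xs i, xs (i + 1)} : Set _)}.ncard ≤ 2 :=
    (Set.ncard_le_ncard h2 (Set.toFinite _)).trans
      ((Set.ncard_insert_le _ _).trans (by rw [Set.ncard_singleton]))
  have h4 : 3 ≤ {j | xs j ∈ ({er i, xs i, xs (i + 1)} : Set _)}.ncard := hi
  omega

end Pool.Agent.Y410.DC
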