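import Pool.Agent.Y600.DC.Stm
import Pool.Agent.H671R2.PolyAuto
import Pool.Agent.H634R2.Clique

/-!
# Domination is hard on the gadget graphs
-/

namespace Pool.Agent.Y410.DC

open Pool.Agent.NPC Pool.Agent.NPC.R671 Pool.Agent.NPC.H634R2 Pool.Agent.Y600.DC

/-- instances of the clique problem -/
abbrev In := (List ℕ × List (ℕ × ℕ)) × ℕ

/-! ### From cliques to vertex covers -/

/-- the vertices of the complement graph (shifted by two), and two new vertices `0`, `1` -/
def SL (I : In) : List ℕ := 0 :: 1 :: I.1.1.map (fun x => x + 2)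

/-- the edges of the complement graph, and the new edge -/
def eT (I : In) (e : ℕ × ℕ) : Bool :=
  decide (e = (0, 1)) || (decide (2 ≤ e.1) && decide (e.1 < e.2) &&
    !decide ((e.1 - 2, e.2 - 2) ∈ I.1.2) && !decide ((e.2 - 2, e.1 - 2) ∈ I.1.2))

/-- the list of the edges -/
def EL (I : In) : List (ℕ × ℕ) := (SL I ×ˢ SL I).filter (fun e => eT I e)

/-- the size of the vertex cover -/
def bd (I : In) : ℕ := I.1.1.length + 1 - I.2

theorem mem_SL (I : In) (x : ℕ) : x ∈ SL I ↔ x = 0 ∨ x = 1 ∨ ∃ y ∈ I.1.1, y + 2 = x := by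
  simp [SL]

theorem mem_EL (I : In) (e : ℕ × ℕ) : e ∈ EL I ↔ (e.1 ∈ SL I ∧ e.2 ∈ SL I) ∧ (e = (0, 1) ∨
    (2 ≤ e.1 ∧ e.1 < e.2 ∧ (e.1 - 2, e.2 - 2) ∉ I.1.2 ∧ (e.2 - 2, e.1 - 2) ∉ I.1.2)) := by
  unfold EL eT
  rw [List.mem_filter, List.mem_product]
  simp only [Bool.or_eq_true, Bool.and_eq_true, decide_eq_true_eq, Bool.not_eq_true',
    decide_eq_false_iff_not, and_assoc]

theorem SL_nodup {I : In} (h : IsGraph I.1.1 I.1.2) : (SL I).Nodup := by
  unfold SL
  rw [List.nodup_cons, List.nodup_cons]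
  refine ⟨by simp, by simp, ?_⟩
  exact h.1.map fun a b h => by simpa using h

theorem EL_nodup {I : In} (h : IsGraph I.1.1 I.1.2) : (EL I).Nodup := by
  unfold EL
  exact ((SL_nodup h).product (SL_nodup h)).filter _

theorem new_mem (I : In) : ((0, 1) : ℕ × ℕ) ∈ EL I := by
  rw [mem_EL]
  exact ⟨⟨by simp [SL], by simp [SL]⟩, Or.inl rfl⟩

theorem lt_of_EL {I : In} {e : ℕ × ℕ} (h : e ∈ EL I) : e.1 < e.2 := by
  rw [mem_EL] at h
  rcases h.2 with h | h
  · rw [h]
    norm_num
  · exact h.2.1

/-- cliques and vertex covers -/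
theorem clique_iff_cover {I : In} (h : IsGraph I.1.1 I.1.2) :
    CLIQUE I ↔ ∃ C : Finset ℕ, C.card ≤ bd I ∧ ∀ e ∈ EL I, e.1 ∈ C ∨ e.2 ∈ C := by
  classical
  have hU : (SL I).toFinset.card = I.1.1.length + 2 := by
    rw [List.toFinset_card_of_nodup (SL_nodup h)]
    simp [SL]
  constructor
  · rintro ⟨_, K, hKV, hK, hadj⟩
    have hsub : insert 0 (K.image (fun x => x + 2)) ⊆ (SL I).toFinset := by
      intro x hx
      rw [List.mem_toFinset, mem_SL]
      rw [Finset.mem_insert, Finset.mem_image] at hx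
      rcases hx with rfl | ⟨y, hy, rfl⟩
      · exact Or.inl rfl
      · exact Or.inr (Or.inr ⟨y, hKV y hy, rfl⟩)
    have hc : (insert 0 (K.image (fun x => x + 2))).card = I.2 + 1 := by
      rw [Finset.card_insert_of_notMem, Finset.card_image_of_injective, hK]
      · intro a b hab
        simpa using hab
      · simp
    refine ⟨(SL I).toFinset \ insert 0 (K.image (fun x => x + 2)), ?_, ?_⟩
    · rw [Finset.card_sdiff_of_subset hsub, hU, hc]
      unfold bd
      omega
    · intro e he
      rw [mem_EL] at he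
      obtain ⟨⟨h1, h2⟩, h3⟩ := he
      rcases h3 with rfl | ⟨h3, h4, h5, h6⟩
      · right
        rw [Finset.mem_sdiff, List.mem_toFinset]
        exact ⟨h2, by simp⟩
      · by_contra hcon
        rw [not_or, Finset.mem_sdiff, Finset.mem_sdiff, List.mem_toFinset, List.mem_toFinset,
          not_and, not_and, not_not, not_not] at hcon
        have g1 := hcon.1 h1
        have g2 := hcon.2 h2
        rw [Finset.mem_insert, Finset.mem_image] at g1 g2
        rcases g1 with g1 | ⟨a, ha, ha'⟩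
        · omega
        rcases g2 with g2 | ⟨b, hb, hb'⟩
        · omega
        rw [← ha', ← hb'] at h5 h6
        rcases hadj a ha b hb (by omega) with g | g
        · exact h5 (by simpa using g)
        · exact h6 (by simpa using g)
  · rintro ⟨C, hC, hcov⟩
    have h01 := hcov _ (new_mem I)
    simp only at h01
    have hCpos : 0 < C.card := by
      rcases h01 with h | h
      · exact Finset.card_pos.2 ⟨_, h⟩
      · exact Finset.card_pos.2 ⟨_, h⟩
    have hW := Finset.le_card_sdiff C (SL I).toFinset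
    obtain ⟨z, hz⟩ : ∃ z, (SL I).toFinset \ C ⊆
        insert z (((SL I).toFinset \ C).filter (fun x => 2 ≤ x)) := by
      rcases h01 with h | h
      · refine ⟨1, fun x hx => ?_⟩
        rw [Finset.mem_insert, Finset.mem_filter]
        rcases Nat.lt_or_ge x 2 with h2 | h2
        · left
          have : x ≠ 0 := by
            rintro rfl
            exact (Finset.mem_sdiff.1 hx).2 h
          omega
        · exact Or.inr ⟨hx, h2⟩
      · refine ⟨0, fun x hx => ?_⟩
        rw [Finset.mem_insert, Finset.mem_filter]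
        rcases Nat.lt_or_ge x 2 with h2 | h2
        · left
          have : x ≠ 1 := by
            rintro rfl
            exact (Finset.mem_sdiff.1 hx).2 h
          omega
        · exact Or.inr ⟨hx, h2⟩
    have hz1 := (Finset.card_le_card hz).trans (Finset.card_insert_le _ _)
    have hk : I.2 ≤ (((SL I).toFinset \ C).filter (fun x => 2 ≤ x)).card := by
      unfold bd at hC
      omega
    obtain ⟨T, hT, hTc⟩ := Finset.exists_subset_card_eq hk
    have hT2 : ∀ x ∈ T, 2 ≤ x ∧ x ∈ SL I ∧ x ∉ C := by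
      intro x hx
      have := hT hx
      rw [Finset.mem_filter, Finset.mem_sdiff, List.mem_toFinset] at this
      exact ⟨this.2, this.1.1, this.1.2⟩
    have key : ∀ a ∈ T, ∀ b ∈ T, a < b → (a - 2, b - 2) ∈ I.1.2 ∨ (b - 2, a - 2) ∈ I.1.2 := by
      intro a ha b hb hab
      by_contra hcon
      rw [not_or] at hcon
      have := hcov (a, b) ((mem_EL _ _).2 ⟨⟨(hT2 a ha).2.1, (hT2 b hb).2.1⟩,
        Or.inr ⟨(hT2 a ha).1, hab, hcon.1, hcon.2⟩⟩)
      rcases this with g | g
      · exact (hT2 a ha).2.2 g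
      · exact (hT2 b hb).2.2 g
    refine ⟨h, T.image (fun x => x - 2), ?_, ?_, ?_⟩
    · intro v hv
      rw [Finset.mem_image] at hv
      obtain ⟨x, hx, rfl⟩ := hv
      obtain ⟨g1, g2, _⟩ := hT2 x hx
      rw [mem_SL] at g2
      rcases g2 with g2 | g2 | ⟨y, hy, g2⟩
      · omega
      · omega
      · rw [← g2]
        simpa using hy
    · rw [Finset.card_image_of_injOn, hTc]
      intro a ha b hb hab
      have g1 := (hT2 a ha).1
      have g2 := (hT2 b hb).1
      simp only at hab
      omega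
    · intro u hu v hv huv
      rw [Finset.mem_image] at hu hv
      obtain ⟨a, ha, rfl⟩ := hu
      obtain ⟨b, hb, rfl⟩ := hv
      rcases lt_trichotomy a b with g | g | g
      · exact key a ha b hb g
      · exact absurd (by rw [g]) huv
      · exact (key b hb a ha g).symm

/-! ### The codes -/

/-- codes of the vertices -/
abbrev Cd := ℕ × (ℕ × ℕ)

/-- half of the adjacency on codes -/
def ad0 (a b : Cd) : Bool :=
  (decide (a.1 = 0) && (decide (b.1 = 0) || decide (b.1 = 1) || decide (b.1 = 2) ||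
    (decide (b.1 = 3) && decide (a.2.1 = b.2.1)) || (decide (b.1 = 5) && decide (a.2.1 = b.2.2)))) ||
  (decide (a.2 = b.2) && ((decide (a.1 = 1) &&
    (decide (b.1 = 2) || decide (b.1 = 3) || decide (b.1 = 4))) ||
    (decide (a.1 = 2) && (decide (b.1 = 4) || decide (b.1 = 5)))))

/-- adjacency on codes -/
def ad (a b : Cd) : Bool := !decide (a = b) && (ad0 a b || ad0 b a)

theorem ad_symm (a b : Cd) : ad a b = ad b a := by
  unfold ad
  rw [Bool.or_comm (ad0 a b)]
  congr 2
  simp [eq_comm]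

theorem ad_irrefl (a : Cd) : ad a a = false := by
  unfold ad
  simp

/-- the vertices of the complement graph -/
abbrev VS (I : In) : Type := {x // x ∈ SL I}

/-- the edges of the complement graph -/
abbrev VE (I : In) : Type := {e // e ∈ EL I}

/-- first end point -/
def sI (I : In) (e : VE I) : VS I := ⟨e.1.1, ((mem_EL I e.1).1 e.2).1.1⟩

/-- second end point -/
def tI (I : In) (e : VE I) : VS I := ⟨e.1.2, ((mem_EL I e.1).1 e.2).1.2⟩

theorem sI_ne (I : In) (e : VE I) : sI I e ≠ tI I e := by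
  intro h
  have h1 := congrArg Subtype.val h
  have h2 := lt_of_EL e.2
  change e.1.1 = e.1.2 at h1
  omega

/-- the code of a vertex -/
def code (I : In) : VS I ⊕ (VE I × Fin 5) → Cd
  | Sum.inl x => (0, (x.1, 0))
  | Sum.inr (e, i) => ((i : ℕ) + 1, e.1)

theorem code_inj (I : In) : Function.Injective (code I) := by
  rintro (⟨x, hx⟩ | ⟨⟨e, he⟩, i⟩) (⟨y, hy⟩ | ⟨⟨f, hf⟩, j⟩) h
  · simp only [code, Prod.mk.injEq, and_true, true_and] at h
    simp [h]
  · simp only [code, Prod.mk.injEq] at h
    omega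
  · simp only [code, Prod.mk.injEq] at h
    omega
  · simp only [code, Prod.mk.injEq] at h
    have : i = j := by
      apply Fin.ext
      omega
    subst this
    simp [h.2]

theorem ad0_code (I : In) (x y : VS I ⊕ (VE I × Fin 5)) (hxy : x ≠ y) :
    ad0 (code I x) (code I y) = true ↔ dAdj (sI I) (tI I) x y := by
  rcases x with ⟨x, hx⟩ | ⟨⟨e, he⟩, i⟩ <;> rcases y with ⟨y, hy⟩ | ⟨⟨f, hf⟩, j⟩
  · simp only [ne_eq, Sum.inl.injEq] at hxy
    simp [ad0, code, dAdj, hxy]
  · fin_cases j <;> simp [ad0, code, dAdj, sI, tI]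
    all_goals exact decide_eq_true_iff
  · fin_cases i <;> simp [ad0, code, dAdj]
  · fin_cases i <;> fin_cases j <;> simp [ad0, code, dAdj]
    all_goals exact decide_eq_true_iff

theorem ad_code (I : In) (x y : VS I ⊕ (VE I × Fin 5)) :
    ad (code I x) (code I y) = true ↔ (dGraph (sI I) (tI I)).Adj x y := by
  change _ ↔ x ≠ y ∧ (dAdj (sI I) (tI I) x y ∨ dAdj (sI I) (tI I) y x)
  unfold ad
  rw [Bool.and_eq_true, Bool.or_eq_true, Bool.not_eq_true', decide_eq_false_iff_not,
    (code_inj I).eq_iff]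
  refine and_congr_right fun h => ?_
  rw [ad0_code I x y h, ad0_code I y x (Ne.symm h)]

/-- the list of the codes of the vertices -/
def vs (I : In) : List Cd :=
  (SL I).map (fun x => (0, (x, 0))) ++
    (EL I).flatMap (fun e => [(1, e), (2, e), (3, e), (4, e), (5, e)])

theorem vs_nodup {I : In} (h : IsGraph I.1.1 I.1.2) : (vs I).Nodup := by
  unfold vs
  rw [List.nodup_append]
  refine ⟨?_, ?_, ?_⟩
  · exact (SL_nodup h).map fun a b h => by simpa using h
  · rw [List.nodup_flatMap]
    refine ⟨fun e _ => by simp, ?_⟩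
    refine List.Pairwise.imp ?_ (EL_nodup h)
    intro a b hab
    simp [Function.onFun, List.Disjoint, hab]
  · intro a ha b hb hab
    subst hab
    rw [List.mem_map] at ha
    obtain ⟨x, _, rfl⟩ := ha
    simp at hb

theorem mem_vs (I : In) (z : Cd) : z ∈ vs I ↔ ∃ x, code I x = z := by
  unfold vs
  rw [List.mem_append, List.mem_map, List.mem_flatMap]
  constructor
  · rintro (⟨x, hx, rfl⟩ | ⟨e, he, hz⟩)
    · exact ⟨Sum.inl ⟨x, hx⟩, rfl⟩
    · simp only [List.mem_cons, List.not_mem_nil, or_false] at hz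
      rcases hz with rfl | rfl | rfl | rfl | rfl
      · exact ⟨Sum.inr (⟨e, he⟩, 0), rfl⟩
      · exact ⟨Sum.inr (⟨e, he⟩, 1), rfl⟩
      · exact ⟨Sum.inr (⟨e, he⟩, 2), rfl⟩
      · exact ⟨Sum.inr (⟨e, he⟩, 3), rfl⟩
      · exact ⟨Sum.inr (⟨e, he⟩, 4), rfl⟩
  · rintro ⟨⟨x, hx⟩ | ⟨⟨e, he⟩, i⟩, rfl⟩
    · exact Or.inl ⟨x, hx, rfl⟩
    · refine Or.inr ⟨e, he, ?_⟩
      fin_cases i <;> simp [code]

/-- the graph of an instance -/
def gr (I : In) : SimpleGraph (Fin (vs I).length) := listGraph (vs I) ad ad_symm ad_irrefl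

theorem gr_equiv {I : In} (h : IsGraph I.1.1 I.1.2) :
    ∃ e : Fin (vs I).length ≃ VS I ⊕ (VE I × Fin 5),
      ∀ i j, (gr I).Adj i j ↔ (dGraph (sI I) (tI I)).Adj (e i) (e j) := by
  obtain ⟨e, he⟩ := exists_equiv (vs I) (vs_nodup h) (code I) (code_inj I) (mem_vs I)
  refine ⟨e, fun i j => ?_⟩
  change ad (vs I)[i] (vs I)[j] = true ↔ _
  rw [← he i, ← he j, ad_code]

/-! ### Transport -/

section transport

variable {V W : Type} {G : SimpleGraph V} {H : SimpleGraph W} (e : V ≃ W)
  (he : ∀ i j, G.Adj i j ↔ H.Adj (e i) (e j))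

include he

theorem chordal_of_equiv (h : Chordal H) : Chordal G := by
  intro m hm c hc hadj
  obtain ⟨i, j, h1, h2, h3⟩ := h m hm (fun i => e (c i)) (e.injective.comp hc)
    (fun i => (he _ _).1 (hadj i))
  exact ⟨i, j, h1, h2, (he _ _).2 h3⟩

theorem noOddSun_of_equiv (h : NoOddSun H) : NoOddSun G := by
  rintro r hr ho ⟨u, w, h1, h2, h3, h4, h5, h6⟩
  refine h r hr ho ⟨fun i => e (u i), fun i => e (w i), e.injective.comp h1, e.injective.comp h2,
    fun i j hij => h3 i j (e.injective hij), fun i j hij => (he _ _).1 (h4 i j hij),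
    fun i j hij => h5 i j ((he _ _).2 hij), fun i j => ?_⟩
  rw [← he]
  exact h6 i j

theorem dom_of_equiv (k : ℕ) : (∃ D : Finset V, D.card ≤ k ∧ Dominating G D) ↔
    ∃ D : Finset W, D.card ≤ k ∧ Dominating H D := by
  constructor
  · rintro ⟨D, hD, hd⟩
    refine ⟨D.map e.toEmbedding, by simpa using hD, fun v hv => ?_⟩
    obtain ⟨v, rfl⟩ := e.surjective v
    rw [Finset.mem_map_equiv, Equiv.symm_apply_apply] at hv
    obtain ⟨w, hw, hvw⟩ := hd v hv
    exact ⟨e w, by simpa using hw, (he _ _).1 hvw⟩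
  · rintro ⟨D, hD, hd⟩
    refine ⟨D.map e.symm.toEmbedding, by simpa using hD, fun v hv => ?_⟩
    rw [Finset.mem_map_equiv, Equiv.symm_symm] at hv
    obtain ⟨w, hw, hvw⟩ := hd (e v) hv
    refine ⟨e.symm w, by simpa using hw, (he _ _).2 ?_⟩
    simpa using hvw

end transport

/-- the number of vertices of the dominating set -/
def kk (I : In) : ℕ := bd I + (EL I).length

theorem dom_iff (hdom : S_DOM) {I : In} (h : IsGraph I.1.1 I.1.2) :
    CLIQUE I ↔ ∃ D : Finset (Fin (vs I).length), D.card ≤ kk I ∧ Dominating (gr I) D := by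
  classical
  obtain ⟨e, he⟩ := gr_equiv h
  rw [dom_of_equiv e he, clique_iff_cover h]
  have : Nonempty (VE I) := ⟨⟨(0, 1), new_mem I⟩⟩
  have hcard : Fintype.card (VE I) = (EL I).length := by
    rw [Fintype.card_of_subtype (EL I).toFinset (fun x => by simp),
      List.toFinset_card_of_nodup (EL_nodup h)]
  have h1 := hdom (VS I) (VE I) (sI I) (tI I) (bd I)
  rw [hcard] at h1
  unfold kk
  rw [h1]
  constructor
  · rintro ⟨C, hC, hcov⟩
    refine ⟨C.subtype (fun x => x ∈ SL I), ?_, ?_⟩
    · rw [Finset.card_subtype]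
      exact (Finset.card_filter_le _ _).trans hC
    · rintro ⟨e, he⟩
      rw [Finset.mem_subtype, Finset.mem_subtype]
      exact hcov e he
  · rintro ⟨C, hC, hcov⟩
    refine ⟨C.map (Function.Embedding.subtype _), by simpa using hC, fun e he => ?_⟩
    rcases hcov ⟨e, he⟩ with h | h
    · left
      exact Finset.mem_map_of_mem (Function.Embedding.subtype _) h
    · right
      exact Finset.mem_map_of_mem (Function.Embedding.subtype _) h

/-! ### Polynomial time -/

theorem SL_poly : Poly SL := by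
  unfold SL
  fun_prop

attribute [local irreducible] SL

theorem eT_poly : Poly (fun x : In × (ℕ × ℕ) => eT x.1 x.2) := by
  unfold eT
  fun_prop

attribute [local irreducible] eT

theorem EL_poly : Poly EL := by
  unfold EL
  exact NPC.Poly.filter (l := fun I : In => SL I ×ˢ SL I) (p := fun I e => eT I e)
    (poly_product SL_poly SL_poly) eT_poly

attribute [local irreducible] EL

theorem vs_poly : Poly vs := by
  unfold vs
  refine NPC.Poly.append ?_ ?_
  · exact NPC.Poly.map (l := SL) (F := fun _ x => (0, (x, 0))) SL_poly (by fun_prop)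
  · exact NPC.Poly.flatMap (l := EL) (F := fun _ e => ([(1, e), (2, e), (3, e), (4, e), (5, e)] : List Cd))
      EL_poly (by fun_prop)

attribute [local irreducible] vs

theorem ad0_poly : Poly (fun x : Cd × Cd => ad0 x.1 x.2) := by
  unfold ad0
  fun_prop

attribute [local irreducible] ad0

theorem ad_poly : Poly (fun x : Cd × Cd => ad x.1 x.2) := by
  unfold ad
  refine NPC.Poly.and (by fun_prop) ?_
  exact Poly.or ad0_poly (ad0_poly.comp (Poly.pair (Poly.snd Poly.id) (Poly.fst Poly.id)))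

attribute [local irreducible] ad

theorem gr_matrix (I : In) :
    adjMatrix (gr I) = (vs I).map (fun u => (vs I).map (fun w => ad u w)) :=
  adjMatrix_listGraph _ _ _ _

theorem row_poly : Poly (fun x : In × Cd => (vs x.1).map (fun w => ad x.2 w)) :=
  NPC.Poly.map (l := fun x : In × Cd => vs x.1) (F := fun x w => ad x.2 w)
    (vs_poly.comp (Poly.fst Poly.id))
    (ad_poly.comp (Poly.pair (Poly.snd (Poly.fst Poly.id)) (Poly.snd Poly.id)))

theorem gr_poly : Poly (fun I : In => adjMatrix (gr I)) :=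
  (NPC.Poly.map vs_poly (F := fun I u => (vs I).map (fun w => ad u w)) row_poly).congr
    fun I => (gr_matrix I).symm

theorem kk_poly : Poly kk := by
  unfold kk bd
  exact Poly.add (by fun_prop) (Poly.length EL_poly)

theorem out_poly : Poly (fun I : In => (adjMatrix (gr I), kk I)) := Poly.pair gr_poly kk_poly

theorem hard : S_CHD → S_SUN → S_DOM → S_HARD := by
  intro hchd hsun hdom L hL
  obtain ⟨g, hg, hgp, hgL⟩ := hardPr_CLIQUE L hL
  refine ⟨fun w => bits (adjMatrix (gr (g w)), kk (g w)), PC.toPolyTime_bits out_poly g hg,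
    fun w => ?_⟩
  obtain ⟨e, he⟩ := gr_equiv (hgp w).1
  refine ⟨_, gr (g w), kk (g w), rfl, chordal_of_equiv e he (hchd _ _ _ _),
    noOddSun_of_equiv e he (hsun _ _ _ _ (sI_ne _)), ?_⟩
  rw [hgL w]
  exact dom_iff hdom (hgp w).1

end Pool.Agent.Y410.DC
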